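import Pool.Agent.H22.AN.TB3

/-! The Hessian bound in all dimensions (MP_2697e3_an), part B, row BWP: the potential of the
windows. -/

set_option autoImplicit false

namespace Pool.Agent.H50.AN

open MeasureTheory Metric Set Filter Topology Pool.Agent.H87.SN Pool.Agent.H87.SH Pool.Agent.H87.AX
open Pool.Agent.H22.AN
open scoped ContDiff RealInnerProductSpace ENNReal

/-- powers of the positive part -/
theorem mx_hd (k : ℕ) (hk : 1 ≤ k) (s : ℝ) :
    HasDerivAt (fun s : ℝ => (max 0 s) ^ (k + 1)) ((k + 1) * (max 0 s) ^ k) s := by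
  have hne : ∀ y : ℝ, y ≠ 0 →
      HasDerivAt (fun s : ℝ => (max 0 s) ^ (k + 1)) ((k + 1) * (max 0 y) ^ k) y := by
    intro y hy
    rcases lt_or_gt_of_ne hy with h | h
    · have h1 : (fun s : ℝ => (max 0 s) ^ (k + 1)) =ᶠ[𝓝 y] fun _ => (0 : ℝ) := by
        filter_upwards [Iio_mem_nhds h] with x hx
        rw [max_eq_left (le_of_lt hx), zero_pow (by omega)]
      rw [max_eq_left h.le, zero_pow (by omega), mul_zero]
      exact (hasDerivAt_const y (0 : ℝ)).congr_of_eventuallyEq h1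
    · have h1 : (fun s : ℝ => (max 0 s) ^ (k + 1)) =ᶠ[𝓝 y] fun s => s ^ (k + 1) := by
        filter_upwards [Ioi_mem_nhds h] with x hx
        rw [max_eq_right (le_of_lt hx)]
      rw [max_eq_right h.le]
      have h2 := (hasDerivAt_pow (k + 1) y).congr_of_eventuallyEq h1
      simpa using h2
  have hc : Continuous (fun s : ℝ => (max 0 s) ^ (k + 1)) := (continuous_const.max continuous_id).pow _
  have hc' : Continuous (fun s : ℝ => ((k : ℝ) + 1) * (max 0 s) ^ k) :=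
    continuous_const.mul ((continuous_const.max continuous_id).pow _)
  by_cases h0 : s = 0
  · subst h0
    exact hasDerivAt_of_hasDerivAt_of_ne (g := fun s : ℝ => ((k : ℝ) + 1) * (max 0 s) ^ k) hne
      hc.continuousAt hc'.continuousAt
  · exact hne s h0

theorem mx_cd (n : ℕ) : ContDiff ℝ n (fun s : ℝ => (max 0 s) ^ (n + 1)) := by
  induction n with
  | zero =>
    rw [Nat.cast_zero, contDiff_zero]
    exact (continuous_const.max continuous_id).pow _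
  | succ n ih =>
    push_cast
    rw [contDiff_succ_iff_deriv]
    refine ⟨fun s => (mx_hd (n + 1) (by omega) s).differentiableAt, fun h => by simp at h, ?_⟩
    have h1 : deriv (fun s : ℝ => (max 0 s) ^ (n + 1 + 1)) =
        fun s => (((n + 1 : ℕ) : ℝ) + 1) * (max 0 s) ^ (n + 1) :=
      funext fun s => (mx_hd (n + 1) (by omega) s).deriv
    rw [h1]
    exact contDiff_const.mul ih

theorem psi_cd (n : ℕ) : ContDiff ℝ 3 (psi (n := n)) := by
  have h1 : ContDiff ℝ 3 (fun v : E n => 1 - ‖v‖ ^ 2) := contDiff_const.sub (contDiff_norm_sq ℝ)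
  have h2 : ContDiff ℝ 3 (fun s : ℝ => (max 0 s) ^ (3 + 1)) := mx_cd 3
  have h3 := (h2.comp h1).div_const 8
  exact h3

section win

variable {d : ℕ}

/-- the inner product as a bilinear map -/
noncomputable def ip (d : ℕ) : E d →L[ℝ] E d →L[ℝ] ℝ :=
  LinearMap.mkContinuous₂ (LinearMap.mk₂ ℝ (fun x y : E d => ⟪x, y⟫)
    (fun x y z => inner_add_left x y z) (fun c x y => by rw [inner_smul_left]; rfl)
    (fun x y z => inner_add_right x y z) (fun c x y => by rw [inner_smul_right]; rfl)) 1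
    (fun x y => by
      rw [one_mul, LinearMap.mk₂_apply, Real.norm_eq_abs]
      exact abs_real_inner_le_norm x y)

theorem ip_apply (x y : E d) : ip d x y = ⟪x, y⟫ := rfl

theorem ip_norm : ‖ip d‖ ≤ 1 := LinearMap.mkContinuous₂_norm_le _ zero_le_one _

theorem ip_eq (x : E d) : ip d x = innerSL ℝ x := by
  ext y
  rw [ip_apply, innerSL_apply_apply]

theorem inner_bv (x : E d) (a : Fin d) : ⟪x, bv a⟫ = x a := by
  unfold bv
  rw [EuclideanSpace.inner_single_right]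
  simp

/-- the derivative of the window -/
theorem bw_fd (hPHI : T_PHI) (z₀ : E d) (t : ℝ) (z : E d) :
    HasFDerivAt (bw z₀ t) (-((cw d * t ^ d)⁻¹ * (6 * (max 0 (1 - ‖t⁻¹ • (z - z₀)‖ ^ 2)) ^ 2) *
      t⁻¹ ^ 2) • innerSL ℝ (z - z₀)) z := by
  obtain ⟨h1, -, h3, -⟩ := hPHI d
  have h4 : HasFDerivAt (phi (n := d)) (fderiv ℝ phi (t⁻¹ • (z - z₀))) (t⁻¹ • (z - z₀)) :=
    (h1.differentiable (by norm_num) _).hasFDerivAt
  have h5 : HasFDerivAt (fun z : E d => t⁻¹ • (z - z₀)) (t⁻¹ • ContinuousLinearMap.id ℝ (E d)) z :=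
    ((hasFDerivAt_id z).sub_const z₀).const_smul t⁻¹
  have h6 := (h4.comp z h5).const_mul (cw d * t ^ d)⁻¹
  refine HasFDerivAt.congr_fderiv h6 ?_
  ext w
  simp only [smul_apply, ContinuousLinearMap.comp_apply,
    ContinuousLinearMap.id_apply, innerSL_apply_apply, smul_eq_mul]
  rw [h3, inner_smul_left, inner_smul_right]
  simp
  ring

/-- the potential -/
noncomputable def pot (z₀ : E d) (t : ℝ) (z : E d) : ℝ := -((cw d * t ^ d)⁻¹ * psi (t⁻¹ • (z - z₀)))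

theorem pot_cd (z₀ : E d) (t : ℝ) : ContDiff ℝ 3 (pot z₀ t) := by
  have h : ContDiff ℝ 3 (fun z : E d => t⁻¹ • (z - z₀)) :=
    (contDiff_id.sub contDiff_const).const_smul t⁻¹
  exact (contDiff_const.mul ((psi_cd d).comp h)).neg

theorem pot_fd (hPHI : T_PHI) (z₀ : E d) (t : ℝ) (z : E d) :
    HasFDerivAt (pot z₀ t) ((t⁻¹ ^ 2 * bw z₀ t z) • innerSL ℝ (z - z₀)) z := by
  obtain ⟨-, h1, -, h3, -⟩ := hPHI d
  have h4 : HasFDerivAt (psi (n := d)) (fderiv ℝ psi (t⁻¹ • (z - z₀))) (t⁻¹ • (z - z₀)) :=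
    (h1.differentiable (by norm_num) _).hasFDerivAt
  have h5 : HasFDerivAt (fun z : E d => t⁻¹ • (z - z₀)) (t⁻¹ • ContinuousLinearMap.id ℝ (E d)) z :=
    ((hasFDerivAt_id z).sub_const z₀).const_smul t⁻¹
  have h6 := ((h4.comp z h5).const_mul (cw d * t ^ d)⁻¹).neg
  refine HasFDerivAt.congr_fderiv h6 ?_
  ext w
  simp only [smul_apply, ContinuousLinearMap.comp_apply,
    ContinuousLinearMap.id_apply, innerSL_apply_apply, smul_eq_mul, neg_apply]
  rw [h3, inner_smul_left, inner_smul_right]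
  unfold bw
  simp
  ring

theorem pot_fd2 (hPHI : T_PHI) (z₀ : E d) (t : ℝ) (z : E d) :
    HasFDerivAt (fderiv ℝ (pot z₀ t)) ((t⁻¹ ^ 2 * bw z₀ t z) • ip d +
      (t⁻¹ ^ 2 • fderiv ℝ (bw z₀ t) z).smulRight (innerSL ℝ (z - z₀))) z := by
  have h0 : fderiv ℝ (pot z₀ t) = fun z => (t⁻¹ ^ 2 * bw z₀ t z) • ip d (z - z₀) :=
    funext fun z => by rw [ip_eq]; exact (pot_fd hPHI z₀ t z).fderiv
  rw [← ip_eq]
  rw [h0]
  have h1 : HasFDerivAt (fun z => t⁻¹ ^ 2 * bw z₀ t z) (t⁻¹ ^ 2 • fderiv ℝ (bw z₀ t) z) z :=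
    ((bw_fd hPHI z₀ t z).differentiableAt.hasFDerivAt).const_mul _
  have h2 : HasFDerivAt (fun z : E d => ip d (z - z₀)) (ip d) z := by
    have h3 := (ip d).hasFDerivAt (x := z - z₀)
    have h4 := h3.comp z ((hasFDerivAt_id z).sub_const z₀)
    exact h4
  exact h1.smul h2

end win

theorem pf_BWP (hPHI : Pool.Agent.H87.SH.T_PHI) : T_BWP := by
  intro d
  obtain ⟨p1, p2, p3, p4, p5, p6, p7, p8, p9, p10, p11, p12, p13⟩ := hPHI d
  have hcw : 0 < cw d := p13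
  refine ⟨7 * (cw d)⁻¹, by positivity, ?_⟩
  intro z₀ t ht
  have ht0 : t ≠ 0 := ht.ne'
  have hbw0 : ∀ z, t ≤ ‖z - z₀‖ → phi (t⁻¹ • (z - z₀)) = 0 ∧ psi (t⁻¹ • (z - z₀)) = 0 := by
    intro z hz
    refine p7 _ ?_
    rw [norm_smul, Real.norm_eq_abs, abs_of_pos (inv_pos.2 ht), ← div_eq_inv_mul, le_div_iff₀ ht]
    linarith
  have hbwn : ∀ z, 0 ≤ bw z₀ t z ∧ bw z₀ t z ≤ (cw d * t ^ d)⁻¹ := by
    intro z
    have h1 := p5 (t⁻¹ • (z - z₀))
    have h2 : 0 ≤ (cw d * t ^ d)⁻¹ := by positivity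
    exact ⟨mul_nonneg h2 h1.1, mul_le_of_le_one_right h2 h1.2⟩
  have hprod : ∀ z, bw z₀ t z * ‖z - z₀‖ ≤ (cw d * t ^ d)⁻¹ * t := by
    intro z
    by_cases hz : t ≤ ‖z - z₀‖
    · have : bw z₀ t z = 0 := by unfold bw; rw [(hbw0 z hz).1, mul_zero]
      rw [this, zero_mul]; positivity
    · push Not at hz
      exact mul_le_mul (hbwn z).2 hz.le (norm_nonneg _) (by positivity)
  have hfdbw : ∀ z, ‖fderiv ℝ (bw z₀ t) z‖ * ‖z - z₀‖ ≤ 6 * (cw d * t ^ d)⁻¹ := by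
    intro z
    rw [(bw_fd hPHI z₀ t z).fderiv, norm_smul, innerSL_apply_norm]
    by_cases hz : t ≤ ‖z - z₀‖
    · have h1 : max 0 (1 - ‖t⁻¹ • (z - z₀)‖ ^ 2) = 0 := by
        refine max_eq_left ?_
        have h2 : 1 ≤ ‖t⁻¹ • (z - z₀)‖ := by
          rw [norm_smul, Real.norm_eq_abs, abs_of_pos (inv_pos.2 ht), ← div_eq_inv_mul,
            le_div_iff₀ ht]
          linarith
        nlinarith
      rw [h1]
      simp
      positivity
    · push Not at hz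
      have h3 : (max 0 (1 - ‖t⁻¹ • (z - z₀)‖ ^ 2)) ^ 2 ≤ 1 := by
        refine pow_le_one₀ (le_max_left _ _) (max_le zero_le_one ?_)
        have := sq_nonneg ‖t⁻¹ • (z - z₀)‖
        linarith
      have h4 : ‖z - z₀‖ * ‖z - z₀‖ ≤ t * t :=
        mul_le_mul hz.le hz.le (norm_nonneg _) ht.le
      rw [Real.norm_eq_abs, abs_neg, abs_of_nonneg (by positivity)]
      calc (cw d * t ^ d)⁻¹ * (6 * (max 0 (1 - ‖t⁻¹ • (z - z₀)‖ ^ 2)) ^ 2) * t⁻¹ ^ 2 *
            ‖z - z₀‖ * ‖z - z₀‖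
          = ((cw d * t ^ d)⁻¹ * 6 * t⁻¹ ^ 2) * ((max 0 (1 - ‖t⁻¹ • (z - z₀)‖ ^ 2)) ^ 2 *
            (‖z - z₀‖ * ‖z - z₀‖)) := by ring
        _ ≤ ((cw d * t ^ d)⁻¹ * 6 * t⁻¹ ^ 2) * (1 * (t * t)) := by
            refine mul_le_mul_of_nonneg_left ?_ (by positivity)
            exact mul_le_mul h3 h4 (by positivity) zero_le_one
        _ = 6 * (cw d * t ^ d)⁻¹ := by field_simp
  -- the derivative of the window in a direction of the basis
  have hbwa : ∀ (z : E d) (a : Fin d), fderiv ℝ (bw z₀ t) z (bv a) =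
      -((cw d * t ^ d)⁻¹ * (6 * (max 0 (1 - ‖t⁻¹ • (z - z₀)‖ ^ 2)) ^ 2) * t⁻¹ ^ 2) *
        (z a - z₀ a) := by
    intro z a
    rw [(bw_fd hPHI z₀ t z).fderiv]
    simp only [smul_apply, innerSL_apply_apply, smul_eq_mul]
    rw [inner_bv]
    simp
  have hlap1 : ∀ z : E d, lap (pot z₀ t) z = ∑ a : Fin d, t⁻¹ ^ 2 * (bw z₀ t z +
      (z a - z₀ a) * fderiv ℝ (bw z₀ t) z (bv a)) := by
    intro z
    unfold lap
    refine Finset.sum_congr rfl fun a _ => ?_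
    rw [(pot_fd2 hPHI z₀ t z).fderiv]
    simp only [add_apply, smul_apply,
      ContinuousLinearMap.smulRight_apply, innerSL_apply_apply, smul_eq_mul, ip_apply]
    rw [inner_bv, inner_bv]
    have h1 : (bv a : E d) a = 1 := by simp [bv]
    rw [h1]
    simp
    ring
  have hlap2 : ∀ z : E d, t * lap (pot z₀ t) z =
      t⁻¹ * ∑ a : Fin d, fderiv ℝ (fun w : E d => (w a - z₀ a) * bw z₀ t w) z (bv a) := by
    intro z
    rw [hlap1, Finset.mul_sum, Finset.mul_sum]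
    refine Finset.sum_congr rfl fun a _ => ?_
    have h1 : HasFDerivAt (fun w : E d => w a - z₀ a)
        (EuclideanSpace.proj a : E d →L[ℝ] ℝ) z :=
      ((EuclideanSpace.proj a : E d →L[ℝ] ℝ).hasFDerivAt).sub_const _
    have h2 := h1.mul (bw_fd hPHI z₀ t z).differentiableAt.hasFDerivAt
    have h2' : HasFDerivAt (fun w : E d => (w a - z₀ a) * bw z₀ t w) _ z := h2
    rw [h2'.fderiv]
    simp only [add_apply, smul_apply, smul_eq_mul]
    have h3 : (EuclideanSpace.proj a : E d →L[ℝ] ℝ) (bv a) = 1 := by simp [bv]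
    rw [h3]
    field_simp
    ring
  refine ⟨?_, pot z₀ t, pot_cd z₀ t, ?_, ?_, ?_, ?_, ?_, ?_, hlap2⟩
  · intro z a
    have h1 : (fun s : ℝ => bw (z₀ + s • bv a) t z) = fun s => bw z₀ t (z - s • bv a) := by
      funext s
      unfold bw
      congr 3
      abel
    rw [h1]
    have h2 : HasDerivAt (fun s : ℝ => z - s • (bv a : E d)) (-(bv a)) 0 := by
      have := ((hasDerivAt_id (0 : ℝ)).smul_const (bv a : E d)).const_sub z
      simpa using this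
    have h3 : HasFDerivAt (bw z₀ t) (fderiv ℝ (bw z₀ t) z) (z - (0 : ℝ) • bv a) := by
      rw [zero_smul, sub_zero]
      exact (bw_fd hPHI z₀ t z).differentiableAt.hasFDerivAt
    have h4 := h3.comp_hasDerivAt (0 : ℝ) h2
    rw [map_neg] at h4
    exact h4
  · intro z hz
    unfold pot
    rw [(hbw0 z hz).2]; simp
  · intro z
    unfold pot
    have h1 := p6 (t⁻¹ • (z - z₀))
    have h2 := p5 (t⁻¹ • (z - z₀))
    rw [abs_neg, abs_of_nonneg (mul_nonneg (by positivity) h1.1), mul_inv]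
    calc (cw d)⁻¹ * (t ^ d)⁻¹ * psi (t⁻¹ • (z - z₀)) ≤ (cw d)⁻¹ * (t ^ d)⁻¹ * 7 := by
          refine mul_le_mul_of_nonneg_left (by linarith) (by positivity)
      _ = 7 * (cw d)⁻¹ / t ^ d := by rw [div_eq_mul_inv]; ring
  · intro z
    rw [(pot_fd hPHI z₀ t z).fderiv, norm_smul, innerSL_apply_norm, Real.norm_eq_abs,
      abs_of_nonneg (mul_nonneg (by positivity) (hbwn z).1)]
    calc t⁻¹ ^ 2 * bw z₀ t z * ‖z - z₀‖ = t⁻¹ ^ 2 * (bw z₀ t z * ‖z - z₀‖) := by ring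
      _ ≤ t⁻¹ ^ 2 * ((cw d * t ^ d)⁻¹ * t) := mul_le_mul_of_nonneg_left (hprod z) (by positivity)
      _ = (cw d)⁻¹ / t ^ (d + 1) := by rw [pow_succ]; field_simp; ring
      _ ≤ 7 * (cw d)⁻¹ / t ^ (d + 1) := by
          refine div_le_div_of_nonneg_right ?_ (by positivity)
          have : 0 < (cw d)⁻¹ := by positivity
          linarith
  · intro z
    rw [(pot_fd2 hPHI z₀ t z).fderiv]
    have e : 7 * (cw d)⁻¹ / t ^ (d + 2) = t⁻¹ ^ 2 * (cw d * t ^ d)⁻¹ +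
        t⁻¹ ^ 2 * (6 * (cw d * t ^ d)⁻¹) := by
      rw [pow_add]; field_simp; ring
    rw [e]
    refine ContinuousLinearMap.opNorm_le_bound₂ _ (by positivity) fun u w => ?_
    have hval : ((t⁻¹ ^ 2 * bw z₀ t z) • ip d +
        (t⁻¹ ^ 2 • fderiv ℝ (bw z₀ t) z).smulRight (innerSL ℝ (z - z₀))) u w =
        t⁻¹ ^ 2 * bw z₀ t z * ⟪u, w⟫ + t⁻¹ ^ 2 * fderiv ℝ (bw z₀ t) z u * ⟪z - z₀, w⟫ := by
      simp only [add_apply, smul_apply,
        ContinuousLinearMap.smulRight_apply, innerSL_apply_apply, smul_eq_mul, ip_apply]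
    rw [hval]
    have n1 : |t⁻¹ ^ 2 * bw z₀ t z * ⟪u, w⟫| ≤ t⁻¹ ^ 2 * (cw d * t ^ d)⁻¹ * (‖u‖ * ‖w‖) := by
      rw [abs_mul, abs_of_nonneg (mul_nonneg (by positivity) (hbwn z).1)]
      refine mul_le_mul ?_ (abs_real_inner_le_norm _ _) (abs_nonneg _) (by positivity)
      exact mul_le_mul_of_nonneg_left (hbwn z).2 (by positivity)
    have n2 : |t⁻¹ ^ 2 * fderiv ℝ (bw z₀ t) z u * ⟪z - z₀, w⟫| ≤
        t⁻¹ ^ 2 * (6 * (cw d * t ^ d)⁻¹) * (‖u‖ * ‖w‖) := by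
      rw [abs_mul, abs_mul, abs_of_nonneg (show 0 ≤ t⁻¹ ^ 2 by positivity)]
      have m1 : |fderiv ℝ (bw z₀ t) z u| ≤ ‖fderiv ℝ (bw z₀ t) z‖ * ‖u‖ :=
        (fderiv ℝ (bw z₀ t) z).le_opNorm u
      have m2 := abs_real_inner_le_norm (z - z₀) w
      calc t⁻¹ ^ 2 * |fderiv ℝ (bw z₀ t) z u| * |⟪z - z₀, w⟫|
          ≤ t⁻¹ ^ 2 * (‖fderiv ℝ (bw z₀ t) z‖ * ‖u‖) * (‖z - z₀‖ * ‖w‖) := by
            refine mul_le_mul ?_ m2 (abs_nonneg _) (by positivity)
            exact mul_le_mul_of_nonneg_left m1 (by positivity)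
        _ = t⁻¹ ^ 2 * (‖fderiv ℝ (bw z₀ t) z‖ * ‖z - z₀‖) * (‖u‖ * ‖w‖) := by ring
        _ ≤ t⁻¹ ^ 2 * (6 * (cw d * t ^ d)⁻¹) * (‖u‖ * ‖w‖) := by
            refine mul_le_mul_of_nonneg_right ?_ (by positivity)
            exact mul_le_mul_of_nonneg_left (hfdbw z) (by positivity)
    calc ‖t⁻¹ ^ 2 * bw z₀ t z * ⟪u, w⟫ + t⁻¹ ^ 2 * fderiv ℝ (bw z₀ t) z u * ⟪z - z₀, w⟫‖
        ≤ |t⁻¹ ^ 2 * bw z₀ t z * ⟪u, w⟫| + |t⁻¹ ^ 2 * fderiv ℝ (bw z₀ t) z u * ⟪z - z₀, w⟫| :=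
          abs_add_le _ _
      _ ≤ _ := add_le_add n1 n2
      _ = _ := by ring
  · intro z a
    rw [(pot_fd hPHI z₀ t z).fderiv]
    simp only [smul_apply, innerSL_apply_apply, smul_eq_mul]
    rw [inner_bv]
    have : (z - z₀) a = z a - z₀ a := rfl
    rw [this]
    field_simp
  · intro z
    have hs1 : HasDerivAt (fun s : ℝ => s⁻¹ • (z - z₀)) ((-(t ^ 2)⁻¹) • (z - z₀)) t :=
      (hasDerivAt_inv ht0).smul_const (z - z₀)
    have hph : HasFDerivAt (phi (n := d)) (fderiv ℝ phi (t⁻¹ • (z - z₀))) (t⁻¹ • (z - z₀)) :=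
      (p1.differentiable (by norm_num) _).hasFDerivAt
    have hs2 := hph.comp_hasDerivAt t hs1
    have hs3 : HasDerivAt (fun s : ℝ => (cw d * s ^ d)⁻¹)
        (-(cw d * (d * t ^ (d - 1))) / (cw d * t ^ d) ^ 2) t :=
      ((hasDerivAt_pow d t).const_mul (cw d)).inv (by positivity)
    have hs4 := hs3.mul hs2
    have hval : -(t * lap (pot z₀ t) z) =
        -(cw d * (d * t ^ (d - 1))) / (cw d * t ^ d) ^ 2 * phi (t⁻¹ • (z - z₀)) +
        (cw d * t ^ d)⁻¹ * fderiv ℝ phi (t⁻¹ • (z - z₀)) ((-(t ^ 2)⁻¹) • (z - z₀)) := by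
      rw [hlap1, p3]
      simp only [hbwa]
      obtain ⟨q, hq⟩ : ∃ q : ℝ, q = 6 * (max 0 (1 - ‖t⁻¹ • (z - z₀)‖ ^ 2)) ^ 2 := ⟨_, rfl⟩
      rw [← hq]
      have hn2 : ‖z - z₀‖ ^ 2 = ∑ a : Fin d, (z a - z₀ a) ^ 2 := by
        rw [EuclideanSpace.norm_sq_eq]
        refine Finset.sum_congr rfl fun a _ => ?_
        rw [Real.norm_eq_abs, sq_abs]
        rfl
      have hsum : ∑ a : Fin d, t⁻¹ ^ 2 * (bw z₀ t z + (z a - z₀ a) *
          (-((cw d * t ^ d)⁻¹ * q * t⁻¹ ^ 2) * (z a - z₀ a))) =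
          t⁻¹ ^ 2 * (d * bw z₀ t z) - t⁻¹ ^ 2 * ((cw d * t ^ d)⁻¹ * q * t⁻¹ ^ 2) *
            ‖z - z₀‖ ^ 2 := by
        rw [hn2, Finset.mul_sum]
        have e1 : ∀ a : Fin d, t⁻¹ ^ 2 * (bw z₀ t z + (z a - z₀ a) *
          (-((cw d * t ^ d)⁻¹ * q * t⁻¹ ^ 2) * (z a - z₀ a))) = t⁻¹ ^ 2 * bw z₀ t z -
          t⁻¹ ^ 2 * ((cw d * t ^ d)⁻¹ * q * t⁻¹ ^ 2) * (z a - z₀ a) ^ 2 := fun a => by ring
        rw [Finset.sum_congr rfl fun a _ => e1 a, Finset.sum_sub_distrib, Finset.sum_const,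
          Finset.card_univ, Fintype.card_fin, nsmul_eq_mul]
        ring
      rw [hsum, inner_smul_left, inner_smul_right, real_inner_self_eq_norm_sq]
      have hb : bw z₀ t z = (cw d * t ^ d)⁻¹ * phi (t⁻¹ • (z - z₀)) := rfl
      rw [hb]
      have hd : -(cw d * (d * t ^ (d - 1))) / (cw d * t ^ d) ^ 2 =
          -(d * t⁻¹) * (cw d * t ^ d)⁻¹ := by
        rcases Nat.eq_zero_or_pos d with h0 | h0
        · subst h0; simp
        · obtain ⟨k, rfl⟩ : ∃ k, d = k + 1 := ⟨d - 1, by omega⟩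
          rw [Nat.add_sub_cancel]
          field_simp
          ring
      rw [hd]
      simp only [conj_trivial]
      field_simp
      ring
    rw [hval]
    exact hs4

end Pool.Agent.H50.AN
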