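import Pool.Agent.H22.AN.TB3
import Pool.Agent.H80.AN.TargetsA

/-! The Hessian bound in all dimensions (MP_2697e3_an), part B, row CNS: conservation of mass and of
the moments. Adapted from Pool/Agent/H21/D3/CNS.lean (dimension three). -/

set_option autoImplicit false

namespace Pool.Agent.H50.AN

open MeasureTheory Metric Set Filter Topology Pool.Agent.H87.SN Pool.Agent.H87.SH Pool.Agent.H87.AX
open Pool.Agent.H22.AN
open scoped ContDiff RealInnerProductSpace ENNReal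

noncomputable section

namespace CNS

variable {d m : ℕ}

theorem nsq_nn (L : V d →L[ℝ] E m) : 0 ≤ nsq L := Finset.sum_nonneg fun _ _ => sq_nonneg _

theorem nzs_nn (L : V d →L[ℝ] E m) : 0 ≤ nzs L := Finset.sum_nonneg fun _ _ => sq_nonneg _

theorem sum_two (f : Fin (d + 2) → ℝ) : ∑ i, f i = f 0 + (f 1 + ∑ b : Fin d, f b.succ.succ) := by
  rw [Fin.sum_univ_succ, Fin.sum_univ_succ]
  rfl

theorem nzs_le (L : V d →L[ℝ] E m) : nzs L ≤ nsq L := by
  unfold nzs nsq
  rw [sum_two (fun i => ‖L (bv i)‖ ^ 2)]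
  have h0 : 0 ≤ ‖L (bv 0)‖ ^ 2 := sq_nonneg _
  have h1 : 0 ≤ ‖L (bv 1)‖ ^ 2 := sq_nonneg _
  linarith

theorem abs_inner_le (L : V d →L[ℝ] E m) (i j : Fin (d + 2)) :
    |⟪L (bv i), L (bv j)⟫| ≤ nsq L := by
  have h0 : ∀ k : Fin (d + 2), ‖L (bv k)‖ ^ 2 ≤ nsq L := fun k =>
    Finset.single_le_sum (f := fun k => ‖L (bv k)‖ ^ 2) (fun _ _ => sq_nonneg _)
      (Finset.mem_univ k)
  have h1 := abs_real_inner_le_norm (L (bv i)) (L (bv j))
  nlinarith [h0 i, h0 j, sq_nonneg (‖L (bv i)‖ - ‖L (bv j)‖)]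

theorem abs_inner_le' (L : V d →L[ℝ] E m) (a b : Fin d) :
    |⟪L (bv a.succ.succ), L (bv b.succ.succ)⟫| ≤ nzs L := by
  have h0 : ∀ k : Fin d, ‖L (bv k.succ.succ)‖ ^ 2 ≤ nzs L := fun k =>
    Finset.single_le_sum (f := fun k : Fin d => ‖L (bv k.succ.succ)‖ ^ 2) (fun _ _ => sq_nonneg _)
      (Finset.mem_univ k)
  have h1 := abs_real_inner_le_norm (L (bv a.succ.succ)) (L (bv b.succ.succ))
  nlinarith [h0 a, h0 b, sq_nonneg (‖L (bv a.succ.succ)‖ - ‖L (bv b.succ.succ)‖)]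

theorem nsq_cont : Continuous (fun L : V d →L[ℝ] E m => nsq L) := by
  unfold nsq
  fun_prop

theorem nzs_cont : Continuous (fun L : V d →L[ℝ] E m => nzs L) := by
  unfold nzs
  fun_prop

theorem bv_apply' {n : ℕ} (i k : Fin n) : (bv i : E n) k = if k = i then 1 else 0 := by
  simp [bv]

theorem statF_gen (L : V d →L[ℝ] E m) (D : V d →L[ℝ] V d) (α : Fin d → V d →L[ℝ] ℝ)
    (β : V d →L[ℝ] ℝ) (j : Fin (d + 2))
    (hD : ∀ v, D v = (∑ a, α a v • bv a.succ.succ) - β v • bv j) :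
    statF L D = nsq L * ((∑ a, α a (bv a.succ.succ)) - β (bv j)) -
      2 * ((∑ a, ∑ i, ⟪L (bv i), L (bv a.succ.succ)⟫ * α a (bv i)) -
        ∑ i, ⟪L (bv i), L (bv j)⟫ * β (bv i)) := by
  unfold statF
  have h1 : ∀ i k, (D (bv i)) k =
      (∑ a, if k = a.succ.succ then α a (bv i) else 0) - (if k = j then β (bv i) else 0) := by
    intro i k
    rw [hD]
    have e1 : ((∑ a, α a (bv i) • bv a.succ.succ) - β (bv i) • bv j : V d) k =
        (∑ a, α a (bv i) * (bv a.succ.succ : V d) k) - β (bv i) * (bv j : V d) k := by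
      simp
    rw [e1, bv_apply']
    congr 1
    · refine Finset.sum_congr rfl fun a _ => ?_
      rw [bv_apply']
      split_ifs <;> simp
    · split_ifs <;> simp
  have h2 : ∑ i, (D (bv i)) i = (∑ a, α a (bv a.succ.succ)) - β (bv j) := by
    simp only [h1, Finset.sum_sub_distrib, Finset.sum_ite_eq', Finset.mem_univ, if_true]
    congr 1
    rw [Finset.sum_comm]
    refine Finset.sum_congr rfl fun a _ => ?_
    rw [Finset.sum_ite_eq' Finset.univ (a.succ.succ) (fun i => α a (bv i))]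
    simp
  have h3 : ∑ i, ∑ k, ⟪L (bv i), L (bv k)⟫ * (D (bv i)) k =
      (∑ a, ∑ i, ⟪L (bv i), L (bv a.succ.succ)⟫ * α a (bv i)) -
        ∑ i, ⟪L (bv i), L (bv j)⟫ * β (bv i) := by
    simp only [h1, mul_sub, Finset.sum_sub_distrib, mul_ite, mul_zero, Finset.sum_ite_eq',
      Finset.mem_univ, if_true]
    congr 1
    rw [Finset.sum_comm (s := (Finset.univ : Finset (Fin d)))]
    refine Finset.sum_congr rfl fun i _ => ?_
    simp only [Finset.mul_sum, mul_ite, mul_zero]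
    rw [Finset.sum_comm]
    refine Finset.sum_congr rfl fun a _ => ?_
    rw [Finset.sum_ite_eq' Finset.univ (a.succ.succ)
      (fun k => ⟪L (bv i), L (bv k)⟫ * α a (bv i))]
    simp
  rw [h2, h3]

/-- bound of the integral of an error term -/
theorem bnd {G : V d → V d →L[ℝ] E m} {R : V d → (V d →L[ℝ] E m) → ℝ}
    {q : (V d →L[ℝ] E m) → ℝ} (hq : Continuous q) (hq0 : ∀ L, 0 ≤ q L) (hq1 : ∀ L, q L ≤ nsq L)
    (hR : Continuous (fun p : V d × (V d →L[ℝ] E m) => R p.1 p.2))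
    (hG : MemLp G 2 (volume.restrict (ball (0 : V d) 2)))
    (hn : IntegrableOn (fun x => nsq (G x)) (ball 0 2))
    {K : ℝ} {A : Set (V d)} (hA : MeasurableSet A) (hAb : A ⊆ ball 0 2) (hK : 0 ≤ K)
    (hRb : ∀ x ∈ A, ∀ L, |R x L| ≤ K * q L) (hR0 : ∀ x, x ∉ A → ∀ L, R x L = 0) :
    IntegrableOn (fun x => R x (G x)) (ball 0 2) ∧
      |∫ x in ball (0 : V d) 2, R x (G x)| ≤ K * ∫ x in A, q (G x) := by
  have hmeas : AEStronglyMeasurable (fun x => (x, G x)) (volume.restrict (ball (0 : V d) 2)) :=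
    aestronglyMeasurable_id.prodMk hG.1
  have hqi : IntegrableOn (fun x => q (G x)) (ball 0 2) := by
    refine Integrable.mono' hn (hq.comp_aestronglyMeasurable hG.1) ?_
    filter_upwards with x
    rw [Real.norm_eq_abs, abs_of_nonneg (hq0 _)]
    exact hq1 _
  have hRB : ∀ x L, |R x L| ≤ K * q L := by
    intro x L
    by_cases hx : x ∈ A
    · exact hRb x hx L
    · rw [hR0 x hx, abs_zero]; exact mul_nonneg hK (hq0 L)
  have hRi : IntegrableOn (fun x => R x (G x)) (ball 0 2) := by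
    refine Integrable.mono' (hqi.const_mul K) (hR.comp_aestronglyMeasurable hmeas) ?_
    filter_upwards with x
    rw [Real.norm_eq_abs]
    exact hRB x _
  refine ⟨hRi, ?_⟩
  have h3 : ∫ x in ball (0 : V d) 2, R x (G x) = ∫ x in A, R x (G x) := by
    rw [← integral_indicator measurableSet_ball, ← integral_indicator hA]
    congr 1
    ext x
    by_cases hx : x ∈ A
    · rw [indicator_of_mem hx, indicator_of_mem (hAb hx)]
    · rw [indicator_of_notMem hx]
      by_cases hb : x ∈ ball (0 : V d) 2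
      · rw [indicator_of_mem hb, hR0 x hx]
      · rw [indicator_of_notMem hb]
  rw [h3, ← integral_const_mul, ← Real.norm_eq_abs]
  refine norm_integral_le_of_norm_le ((hqi.mono_set hAb).const_mul K) ?_
  filter_upwards with x
  rw [Real.norm_eq_abs]
  exact hRB x _

theorem key (hM : Pool.Agent.H22.AN.T_MUF) {G : V d → V d →L[ℝ] E m}
    (hG : MemLp G 2 (volume.restrict (ball (0 : V d) 2))) (hs : Stat1 G) {X : V d → V d}
    (hX : ContDiff ℝ 1 X) (hXs : ∀ x, x ∉ closedBall (0 : V d) (3 / 2) → X x = 0)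
    {F R₁ R₂ : V d → (V d →L[ℝ] E m) → ℝ}
    (hF : Continuous (fun p : V d × (V d →L[ℝ] E m) => F p.1 p.2))
    (hR₁ : Continuous (fun p : V d × (V d →L[ℝ] E m) => R₁ p.1 p.2))
    (hR₂ : Continuous (fun p : V d × (V d →L[ℝ] E m) => R₂ p.1 p.2))
    {K K₁ K₂ : ℝ} {A₁ A₂ : Set (V d)} (hA₁ : MeasurableSet A₁) (hA₁b : A₁ ⊆ ball 0 2)
    (hK₁ : 0 ≤ K₁) (hA₂ : MeasurableSet A₂) (hA₂b : A₂ ⊆ ball 0 2) (hK₂ : 0 ≤ K₂)
    (hFb : ∀ x ∈ ball (0 : V d) 2, ∀ L, |F x L| ≤ K * nsq L)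
    (hR₁b : ∀ x ∈ A₁, ∀ L, |R₁ x L| ≤ K₁ * nzs L) (hR₁0 : ∀ x, x ∉ A₁ → ∀ L, R₁ x L = 0)
    (hR₂b : ∀ x ∈ A₂, ∀ L, |R₂ x L| ≤ K₂ * nsq L) (hR₂0 : ∀ x, x ∉ A₂ → ∀ L, R₂ x L = 0)
    (he : ∀ x L, statF L (fderiv ℝ X x) = F x L + (R₁ x L + R₂ x L)) :
    |∫ x in ball (0 : V d) 2, F x (G x)| ≤
      K₁ * (∫ x in A₁, nzs (G x)) + K₂ * ∫ x in A₂, nsq (G x) := by
  obtain ⟨-, -, -, h4, -, -⟩ := hM d m G hG
  have hn : IntegrableOn (fun x => nsq (G x)) (ball 0 2) := (h4 _ measurableSet_ball subset_rfl).1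
  have hsub : Function.support X ⊆ closedBall (0 : V d) (3 / 2) := by
    intro x hx
    by_contra hc
    exact hx (hXs x hc)
  have hts : tsupport X ⊆ closedBall (0 : V d) (3 / 2) := closure_minimal hsub isClosed_closedBall
  have hts2 : tsupport X ⊆ ball (0 : V d) 2 := hts.trans (closedBall_subset_ball (by norm_num))
  have h0 := hs X hX (HasCompactSupport.intro (isCompact_closedBall (0 : V d) (3 / 2)) hXs) hts2
  have h1 : ∫ x in ball (0 : V d) 2, statF (G x) (fderiv ℝ X x) = 0 := by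
    rw [setIntegral_eq_integral_of_forall_compl_eq_zero, h0]
    intro x hx
    have : fderiv ℝ X x = 0 := fderiv_of_notMem_tsupport ℝ (fun h => hx (hts2 h))
    rw [this]
    simp [statF]
  have hmeas : AEStronglyMeasurable (fun x => (x, G x)) (volume.restrict (ball (0 : V d) 2)) :=
    aestronglyMeasurable_id.prodMk hG.1
  have hFi : IntegrableOn (fun x => F x (G x)) (ball 0 2) := by
    refine Integrable.mono' (hn.const_mul K) (hF.comp_aestronglyMeasurable hmeas) ?_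
    filter_upwards [ae_restrict_mem measurableSet_ball] with x hx
    rw [Real.norm_eq_abs]
    exact hFb x hx _
  obtain ⟨i1, b1⟩ := bnd nzs_cont nzs_nn nzs_le hR₁ hG hn hA₁ hA₁b hK₁ hR₁b hR₁0
  obtain ⟨i2, b2⟩ := bnd nsq_cont nsq_nn (fun L => le_rfl) hR₂ hG hn hA₂ hA₂b hK₂ hR₂b hR₂0
  simp only [he] at h1
  have i3 : IntegrableOn (fun x => R₁ x (G x) + R₂ x (G x)) (ball 0 2) := i1.add i2
  rw [integral_add hFi i3, integral_add i1 i2] at h1
  have h2 : ∫ x in ball (0 : V d) 2, F x (G x) = - ((∫ x in ball (0 : V d) 2, R₁ x (G x)) +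
    ∫ x in ball (0 : V d) 2, R₂ x (G x)) := by linarith
  rw [h2, abs_neg]
  exact (abs_add_le _ _).trans (add_le_add b1 b2)

/-! ### Geometry -/

/-- the projection as a linear map -/
def zL (d : ℕ) : V d →L[ℝ] E d :=
  LinearMap.toContinuousLinearMap
    { toFun := fun x => zp x
      map_add' := fun x y => by ext i; simp [zp]
      map_smul' := fun c x => by ext i; simp [zp] }

theorem zL_apply (x : V d) : zL d x = zp x := rfl

theorem zp_cont : Continuous (fun x : V d => zp x) := (zL d).continuous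

theorem zp_zero : zp (bv 0 : V d) = 0 := by
  ext i
  simp [zp, bv, Fin.succ_ne_zero]

theorem zp_one : zp (bv 1 : V d) = 0 := by
  ext i
  have h : (i.succ.succ : Fin (d + 2)) ≠ 1 := by
    intro h
    have := congrArg Fin.val h
    simp at this
  simp [zp, bv, h]

theorem zp_two (a : Fin d) : zp (bv a.succ.succ : V d) = bv a := by
  ext i
  have h1 : (bv a.succ.succ : V d) i.succ.succ = if i.succ.succ = a.succ.succ then 1 else 0 :=
    bv_apply' _ _
  have h2 : (bv a : E d) i = if i = a then 1 else 0 := bv_apply' _ _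
  show (bv a.succ.succ : V d) i.succ.succ = (bv a : E d) i
  rw [h1, h2]
  simp

theorem rho_cont : Continuous (fun x : V d => rho x) := by
  unfold rho
  fun_prop

theorem rho_nn (x : V d) : 0 ≤ rho x := Real.sqrt_nonneg _

theorem norm_sq_eq (x : V d) : ‖x‖ ^ 2 = rho x ^ 2 + ‖zp x‖ ^ 2 := by
  have h1 : rho x ^ 2 = x 0 ^ 2 + x 1 ^ 2 := by
    unfold rho
    rw [Real.sq_sqrt (by positivity)]
  rw [h1, EuclideanSpace.norm_sq_eq, EuclideanSpace.norm_sq_eq, sum_two (fun i => ‖x i‖ ^ 2)]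
  simp only [Real.norm_eq_abs, sq_abs]
  have h2 : ∀ b : Fin d, (zp x) b = x b.succ.succ := fun b => rfl
  simp only [h2]
  ring

theorem coord_le {j : Fin (d + 2)} (hj : (j : ℕ) < 2) (x : V d) : |x j| ≤ rho x := by
  unfold rho
  apply Real.abs_le_sqrt
  have : j = 0 ∨ j = 1 := by
    rcases Nat.lt_or_ge (j : ℕ) 1 with h | h
    · left
      exact Fin.ext (by show (j : ℕ) = 0; omega)
    · right
      exact Fin.ext (by rw [Fin.val_one]; omega)
  rcases this with rfl | rfl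
  · nlinarith [sq_nonneg (x 1)]
  · nlinarith [sq_nonneg (x 0)]

/-- The set of the tube. -/
def Tu (d : ℕ) (h Z : ℝ) : Set (V d) := {x : V d | rho x < 2 * h ∧ ‖zp x‖ < Z}

/-- The set of the annulus. -/
def An (d : ℕ) (h Z : ℝ) : Set (V d) := {x : V d | h < rho x ∧ rho x < 2 * h ∧ ‖zp x‖ < Z}

theorem Tu_meas (h Z : ℝ) : MeasurableSet (Tu d h Z) := by
  have h1 : Continuous (fun x : V d => ‖zp x‖) := zp_cont.norm
  exact ((isOpen_lt rho_cont continuous_const).inter (isOpen_lt h1 continuous_const)).measurableSet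

theorem An_meas (h Z : ℝ) : MeasurableSet (An d h Z) := by
  have h1 : Continuous (fun x : V d => ‖zp x‖) := zp_cont.norm
  exact ((isOpen_lt continuous_const rho_cont).inter
    ((isOpen_lt rho_cont continuous_const).inter (isOpen_lt h1 continuous_const))).measurableSet

theorem Tu_sub {h Z : ℝ} (hh : h ≤ 1 / 8) (hZ : Z ≤ 1) : Tu d h Z ⊆ ball (0 : V d) 2 := by
  rintro x ⟨h2, h3⟩
  rw [mem_ball_zero_iff]
  have h4 := norm_sq_eq x
  have h5 := rho_nn x
  have h6 : ‖zp x‖ ^ 2 ≤ 1 := by nlinarith [norm_nonneg (zp x)]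
  nlinarith [norm_nonneg x]

theorem An_sub {h Z : ℝ} (hh : h ≤ 1 / 8) (hZ : Z ≤ 1) : An d h Z ⊆ ball (0 : V d) 2 :=
  fun _ hx => Tu_sub hh hZ ⟨hx.2.1, hx.2.2⟩

theorem out_cb {h Z : ℝ} (hh : h ≤ 1 / 8) (hZ : Z ≤ 1) {x : V d}
    (hx : x ∉ closedBall (0 : V d) (3 / 2)) : 2 * h ≤ rho x ∨ Z ≤ ‖zp x‖ := by
  by_contra hc
  push Not at hc
  obtain ⟨h2, h3⟩ := hc
  apply hx
  rw [mem_closedBall_zero_iff]
  have h4 := norm_sq_eq x
  have h5 := rho_nn x
  have h6 : ‖zp x‖ ^ 2 ≤ 1 := by nlinarith [norm_nonneg (zp x)]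
  nlinarith [norm_nonneg x]

/-- a function of class `C¹` which vanishes off a ball has derivative zero off the ball -/
theorem fderiv_zero {φ : E d → ℝ} {Z : ℝ} (hφ : ContDiff ℝ 1 φ) (hZ : 0 < Z)
    (h0 : ∀ z, Z ≤ ‖z‖ → φ z = 0) (z : E d) (hz : Z ≤ ‖z‖) : fderiv ℝ φ z = 0 := by
  have hc : Continuous (fun t : ℝ => fderiv ℝ φ (t • z)) :=
    (hφ.continuous_fderiv (by simp)).comp (continuous_id.smul continuous_const)
  have h1 : Tendsto (fun t : ℝ => fderiv ℝ φ (t • z)) (𝓝[>] 1) (𝓝 (fderiv ℝ φ ((1 : ℝ) • z))) :=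
    (hc.tendsto 1).mono_left nhdsWithin_le_nhds
  have hzn : 0 < ‖z‖ := lt_of_lt_of_le hZ hz
  have h2 : ∀ t : ℝ, 1 < t → fderiv ℝ φ (t • z) = 0 := by
    intro t ht
    have h3 : Z < ‖t • z‖ := by
      rw [norm_smul, Real.norm_eq_abs, abs_of_pos (by linarith)]
      nlinarith
    have h4 : φ =ᶠ[𝓝 (t • z)] fun _ => (0 : ℝ) := by
      have h5 : {w : E d | Z < ‖w‖} ∈ 𝓝 (t • z) :=
        (isOpen_lt continuous_const continuous_norm).mem_nhds h3
      filter_upwards [h5] with w hw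
      exact h0 w (le_of_lt hw)
    rw [h4.fderiv_eq]
    simp
  have h6 : Tendsto (fun t : ℝ => fderiv ℝ φ (t • z)) (𝓝[>] 1) (𝓝 0) := by
    refine Tendsto.congr' ?_ tendsto_const_nhds
    filter_upwards [self_mem_nhdsWithin] with t ht
    exact (h2 t ht).symm
  have h7 := tendsto_nhds_unique h1 h6
  rwa [one_smul] at h7

/-- The error term. -/
def Sk (h : ℝ) (x : V d) (L : V d →L[ℝ] E m) (k : Fin (d + 2)) : ℝ :=
  ∑ i, ⟪L (bv i), L (bv k)⟫ * fderiv ℝ (chh h) x (bv i)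

theorem bv_norm {n : ℕ} (i : Fin n) : ‖(bv i : E n)‖ = 1 := by simp [bv]

theorem Sk_le {h c : ℝ} (hc : ∀ x v : V d, |fderiv ℝ (chh h) x v| ≤ c * ‖v‖) (x : V d)
    (L : V d →L[ℝ] E m) (k : Fin (d + 2)) : |Sk h x L k| ≤ (d + 2) * (c * nsq L) := by
  unfold Sk
  have h1 : ∀ i : Fin (d + 2), |fderiv ℝ (chh h) x (bv i)| ≤ c := by
    intro i
    have := hc x (bv i)
    rwa [bv_norm, mul_one] at this
  refine (Finset.abs_sum_le_sum_abs _ _).trans ?_
  have h2 : ∀ i ∈ (Finset.univ : Finset (Fin (d + 2))),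
      |⟪L (bv i), L (bv k)⟫ * fderiv ℝ (chh h) x (bv i)| ≤ c * nsq L := by
    intro i _
    rw [abs_mul, mul_comm]
    exact mul_le_mul (h1 i) (abs_inner_le L i k) (abs_nonneg _) ((abs_nonneg _).trans (h1 i))
  refine (Finset.sum_le_sum h2).trans ?_
  rw [Finset.sum_const, Finset.card_univ, Fintype.card_fin, nsmul_eq_mul]
  push_cast
  exact le_rfl

theorem Sk_cont {h : ℝ} (hC : ContDiff ℝ ∞ (chh (d := d) h)) (k : Fin (d + 2)) :
    Continuous (fun p : V d × (V d →L[ℝ] E m) => Sk h p.1 p.2 k) := by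
  unfold Sk
  have h1 : Continuous (fderiv ℝ (chh (d := d) h)) := hC.continuous_fderiv (by simp)
  refine continuous_finsetSum _ fun i _ => ?_
  refine Continuous.mul ?_ ?_
  · exact Continuous.inner (by fun_prop) (by fun_prop)
  · exact (h1.comp continuous_fst).clm_apply continuous_const

/-- derivative of a product -/
theorem fd1 {φ : E d → ℝ} {g : V d → ℝ} (hφ : Differentiable ℝ φ) (hg : Differentiable ℝ g)
    (x v : V d) : fderiv ℝ (fun y : V d => φ (zp y) * g y) x v =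
      fderiv ℝ φ (zp x) (zp v) * g x + φ (zp x) * fderiv ℝ g x v := by
  have h0 : HasFDerivAt (fun y : V d => φ (zp y)) ((fderiv ℝ φ (zp x)).comp (zL d)) x :=
    (hφ (zp x)).hasFDerivAt.comp x ((zL d).hasFDerivAt)
  have h1 : HasFDerivAt (fun y : V d => φ (zp y) * g y) _ x := h0.mul (hg x).hasFDerivAt
  rw [h1.fderiv]
  simp [zL_apply]
  ring

theorem d1 {φ : E d → ℝ} {g : V d → ℝ} (hφ : Differentiable ℝ φ) (hg : Differentiable ℝ g) :
    Differentiable ℝ (fun y : V d => φ (zp y) * g y) := by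
  intro x
  have h0 : HasFDerivAt (fun y : V d => φ (zp y)) ((fderiv ℝ φ (zp x)).comp (zL d)) x :=
    (hφ (zp x)).hasFDerivAt.comp x ((zL d).hasFDerivAt)
  exact (h0.mul (hg x).hasFDerivAt).differentiableAt

theorem fd2 {φ : E d → ℝ} {g : V d → ℝ} (hφ : Differentiable ℝ φ) (hg : Differentiable ℝ g)
    (j : Fin (d + 2)) (x v : V d) : fderiv ℝ (fun y : V d => φ (zp y) * g y * y j) x v =
      (fderiv ℝ φ (zp x) (zp v) * g x + φ (zp x) * fderiv ℝ g x v) * x j +
        φ (zp x) * g x * v j := by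
  have h1 : HasFDerivAt (fun y : V d => y j) (EuclideanSpace.proj j : V d →L[ℝ] ℝ) x :=
    (EuclideanSpace.proj j : V d →L[ℝ] ℝ).hasFDerivAt
  have h2 : HasFDerivAt (fun y : V d => φ (zp y) * g y * y j) _ x :=
    (d1 hφ hg x).hasFDerivAt.mul h1
  rw [h2.fderiv]
  have h4 := fd1 hφ hg x v
  simp only [add_apply, smul_apply, smul_eq_mul]
  rw [h4]
  simp
  ring

theorem chh_fd {h : ℝ} (hb : ∀ x : V d, 0 ≤ chh h x ∧ chh h x ≤ 1)
    (h1 : ∀ x : V d, rho x ≤ h → chh h x = 1) (h2 : ∀ x : V d, 2 * h ≤ rho x → chh h x = 0)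
    (x : V d) (hx : ¬ (h < rho x ∧ rho x < 2 * h)) : fderiv ℝ (chh h) x = 0 := by
  by_cases hc : h < rho x
  · have hc2 : 2 * h ≤ rho x := by
      by_contra hh
      exact hx ⟨hc, not_le.mp hh⟩
    apply IsLocalMin.fderiv_eq_zero
    filter_upwards with y
    rw [h2 x hc2]
    exact (hb y).1
  · apply IsLocalMax.fderiv_eq_zero
    filter_upwards with y
    rw [h1 x (not_lt.mp hc)]
    exact (hb y).2

theorem statF_one (L : V d →L[ℝ] E m) (D : V d →L[ℝ] V d) (α : V d →L[ℝ] ℝ) (k : Fin (d + 2))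
    (hD : ∀ v, D v = α v • bv k) :
    statF L D = nsq L * α (bv k) - 2 * ∑ i, ⟪L (bv i), L (bv k)⟫ * α (bv i) := by
  unfold statF
  have h1 : ∀ i l, (D (bv i)) l = if l = k then α (bv i) else 0 := by
    intro i l
    rw [hD]
    simp [bv]
  simp only [h1, mul_ite, mul_zero, Finset.sum_ite_eq', Finset.mem_univ, if_true]

theorem X_C1 {h : ℝ} (hC : ContDiff ℝ ∞ (chh (d := d) h)) {φ : E d → ℝ} (hφ : ContDiff ℝ 1 φ) :
    ContDiff ℝ 1 (fun x : V d => φ (zp x) * chh h x) := by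
  have h1 : ContDiff ℝ 1 (chh (d := d) h) := hC.of_le (by exact_mod_cast le_top)
  exact (hφ.comp ((zL d).contDiff)).mul h1

theorem sum_abs_le {n : ℕ} (f : Fin n → ℝ) {K : ℝ} (h : ∀ i, |f i| ≤ K) :
    |∑ i, f i| ≤ n * K := by
  refine (Finset.abs_sum_le_sum_abs _ _).trans ?_
  refine (Finset.sum_le_sum fun i _ => h i).trans ?_
  rw [Finset.sum_const, Finset.card_univ, Fintype.card_fin, nsmul_eq_mul]

theorem part1 (hM : Pool.Agent.H22.AN.T_MUF) {c h Z : ℝ} (hh8 : h ≤ 1 / 8) (hZ : 0 < Z)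
    (hZ1 : Z ≤ 1) (hc0 : 0 ≤ c) (hC : ContDiff ℝ ∞ (chh (d := d) h))
    (hb : ∀ x : V d, 0 ≤ chh h x ∧ chh h x ≤ 1)
    (h1 : ∀ x : V d, rho x ≤ h → chh h x = 1) (h2 : ∀ x : V d, 2 * h ≤ rho x → chh h x = 0)
    (h3 : ∀ x v : V d, |fderiv ℝ (chh h) x v| ≤ c * ‖v‖)
    (h4 : ∀ (x : V d) (i : Fin d), fderiv ℝ (chh h) x (bv i.succ.succ) = 0)
    {G : V d → V d →L[ℝ] E m} (hG : MemLp G 2 (volume.restrict (ball (0 : V d) 2)))
    (hs : Stat1 G) {φ : E d → ℝ} {B₀ B₁ : ℝ} (a : Fin d) (hφ : ContDiff ℝ 1 φ)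
    (hφ0 : ∀ z, Z ≤ ‖z‖ → φ z = 0) (hB : ∀ z, |φ z| ≤ B₀) (hB' : ∀ z, ‖fderiv ℝ φ z‖ ≤ B₁) :
    |∫ x in ball (0 : V d) 2, chh h x * fderiv ℝ φ (zp x) (bv a) * nsq (G x)| ≤
      (2 * (d * B₁)) * Ez G h Z + (2 * (B₀ * ((d + 2) * c))) * In G h Z := by
  have hB0 : 0 ≤ B₀ := (abs_nonneg _).trans (hB 0)
  have hB1 : 0 ≤ B₁ := (norm_nonneg _).trans (hB' 0)
  have hcd : Differentiable ℝ (chh (d := d) h) := hC.differentiable (by simp)
  have hφd : Differentiable ℝ φ := hφ.differentiable (by simp)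
  have hφ' : Continuous (fderiv ℝ φ) := hφ.continuous_fderiv (by simp)
  have hφz := fderiv_zero hφ hZ hφ0
  have hcc : Continuous (chh (d := d) h) := hcd.continuous
  have hpb : ∀ b : Fin d, Continuous (fun x : V d => fderiv ℝ φ (zp x) (bv b)) :=
    fun b => (hφ'.comp zp_cont).clm_apply continuous_const
  have hFc : Continuous (fun x : V d => chh h x * fderiv ℝ φ (zp x) (bv a)) := hcc.mul (hpb a)
  obtain ⟨K, hK⟩ := (isCompact_closedBall (0 : V d) 2).exists_bound_of_continuousOn hFc.continuousOn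
  set g : V d → ℝ := fun x : V d => φ (zp x) * chh h x with hg
  have hgC : ContDiff ℝ 1 g := X_C1 hC hφ
  have hgd : Differentiable ℝ g := hgC.differentiable (by simp)
  have hgfd : ∀ x v : V d, fderiv ℝ g x v =
      fderiv ℝ φ (zp x) (zp v) * chh h x + φ (zp x) * fderiv ℝ (chh h) x v :=
    fun x v => fd1 hφd hcd x v
  refine key (d := d) (m := m) hM hG hs (X := fun x => g x • (bv a.succ.succ : V d))
    (F := fun x L => chh h x * fderiv ℝ φ (zp x) (bv a) * nsq L)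
    (R₁ := fun x L => - (2 * (chh h x * ∑ b : Fin d, fderiv ℝ φ (zp x) (bv b) *
      ⟪L (bv b.succ.succ), L (bv a.succ.succ)⟫)))
    (R₂ := fun x L => - (2 * (φ (zp x) * Sk h x L a.succ.succ))) (K := K)
    (hgC.smul contDiff_const) ?_ ?_ ?_ ?_
    (Tu_meas h Z) (Tu_sub hh8 hZ1) (by positivity) (An_meas h Z) (An_sub hh8 hZ1) (by positivity)
    ?_ ?_ ?_ ?_ ?_ ?_
  · intro x hx
    have : g x = 0 := by
      rcases out_cb hh8 hZ1 hx with h5 | h5
      · simp [hg, h2 x h5]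
      · simp [hg, hφ0 _ h5]
    simp [this]
  · exact (hFc.comp continuous_fst).mul (nsq_cont.comp continuous_snd)
  · refine (continuous_const.mul ((hcc.comp continuous_fst).mul
      (continuous_finsetSum _ fun b _ => ?_))).neg
    exact ((hpb b).comp continuous_fst).mul (Continuous.inner (by fun_prop) (by fun_prop))
  · exact (continuous_const.mul (((hφ.continuous.comp zp_cont).comp continuous_fst).mul
      (Sk_cont hC a.succ.succ))).neg
  · intro x hx L
    have h5 := hK x (ball_subset_closedBall hx)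
    rw [Real.norm_eq_abs] at h5
    rw [abs_mul, abs_of_nonneg (nsq_nn L)]
    exact mul_le_mul_of_nonneg_right h5 (nsq_nn L)
  · intro x _ L
    have h5 : |∑ b : Fin d, fderiv ℝ φ (zp x) (bv b) *
        ⟪L (bv b.succ.succ), L (bv a.succ.succ)⟫| ≤ d * (B₁ * nzs L) := by
      refine sum_abs_le _ fun b => ?_
      rw [abs_mul]
      refine mul_le_mul ?_ (abs_inner_le' L b a) (abs_nonneg _) hB1
      have h6 := (fderiv ℝ φ (zp x)).le_opNorm (bv b)
      rw [bv_norm, mul_one, Real.norm_eq_abs] at h6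
      exact h6.trans (hB' _)
    rw [abs_neg, abs_mul, abs_two, abs_mul, abs_of_nonneg (hb x).1]
    have h7 : chh h x * |∑ b : Fin d, fderiv ℝ φ (zp x) (bv b) *
        ⟪L (bv b.succ.succ), L (bv a.succ.succ)⟫| ≤ 1 * (d * (B₁ * nzs L)) :=
      mul_le_mul (hb x).2 h5 (abs_nonneg _) zero_le_one
    linarith
  · intro x hx L
    by_cases h5 : Z ≤ ‖zp x‖
    · simp [hφz _ h5]
    · have h6 : 2 * h ≤ rho x := by
        by_contra h7
        exact hx ⟨not_le.mp h7, not_le.mp h5⟩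
      simp [h2 x h6]
  · intro x _ L
    have h5 := Sk_le h3 x L a.succ.succ
    rw [abs_neg, abs_mul, abs_two, abs_mul]
    have h6 := mul_le_mul (hB (zp x)) h5 (abs_nonneg _) hB0
    linarith
  · intro x hx L
    by_cases h5 : Z ≤ ‖zp x‖
    · simp [hφ0 _ h5]
    · have h6 : fderiv ℝ (chh h) x = 0 :=
        chh_fd hb h1 h2 x (fun h7 => hx ⟨h7.1, h7.2, not_le.mp h5⟩)
      simp [Sk, h6]
  · intro x L
    rw [statF_one L _ (fderiv ℝ g x) a.succ.succ (fun v => by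
      rw [((hgd x).hasFDerivAt.smul_const (bv a.succ.succ : V d)).fderiv]; rfl)]
    have h6 : ∑ i, ⟪L (bv i), L (bv a.succ.succ)⟫ * fderiv ℝ g x (bv i) =
        chh h x * (∑ b : Fin d, fderiv ℝ φ (zp x) (bv b) *
          ⟪L (bv b.succ.succ), L (bv a.succ.succ)⟫) + φ (zp x) * Sk h x L a.succ.succ := by
      unfold Sk
      rw [Finset.mul_sum, Finset.mul_sum,
        sum_two (fun i => ⟪L (bv i), L (bv a.succ.succ)⟫ * fderiv ℝ g x (bv i)),
        sum_two (fun i => φ (zp x) * (⟪L (bv i), L (bv a.succ.succ)⟫ *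
          fderiv ℝ (chh h) x (bv i)))]
      simp only [hgfd, zp_zero, zp_one, zp_two, map_zero, zero_mul, zero_add]
      have e1 : ∀ b : Fin d, ⟪L (bv b.succ.succ), L (bv a.succ.succ)⟫ *
          (fderiv ℝ φ (zp x) (bv b) * chh h x + φ (zp x) * fderiv ℝ (chh h) x (bv b.succ.succ)) =
          chh h x * (fderiv ℝ φ (zp x) (bv b) * ⟪L (bv b.succ.succ), L (bv a.succ.succ)⟫) +
          φ (zp x) * (⟪L (bv b.succ.succ), L (bv a.succ.succ)⟫ *
            fderiv ℝ (chh h) x (bv b.succ.succ)) := fun b => by ring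
      rw [Finset.sum_congr rfl fun b _ => e1 b, Finset.sum_add_distrib]
      ring
    rw [h6, hgfd, h4, zp_two]
    ring

theorem part2 (hM : Pool.Agent.H22.AN.T_MUF) {c h Z : ℝ} (hh : 0 < h) (hh8 : h ≤ 1 / 8)
    (hZ : 0 < Z) (hZ1 : Z ≤ 1) (hc0 : 0 ≤ c) (hC : ContDiff ℝ ∞ (chh (d := d) h))
    (hb : ∀ x : V d, 0 ≤ chh h x ∧ chh h x ≤ 1)
    (h1 : ∀ x : V d, rho x ≤ h → chh h x = 1) (h2 : ∀ x : V d, 2 * h ≤ rho x → chh h x = 0)
    (h3 : ∀ x v : V d, |fderiv ℝ (chh h) x v| ≤ c * ‖v‖)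
    (h4 : ∀ (x : V d) (i : Fin d), fderiv ℝ (chh h) x (bv i.succ.succ) = 0)
    {G : V d → V d →L[ℝ] E m} (hG : MemLp G 2 (volume.restrict (ball (0 : V d) 2)))
    (hs : Stat1 G) {φ : E d → ℝ} {ψ : Fin d → E d → ℝ} {B₀ B₁ B₂ : ℝ} {j : Fin (d + 2)}
    (hj : (j : ℕ) < 2) (hφ : ContDiff ℝ 1 φ) (hψ : ∀ a, ContDiff ℝ 1 (ψ a))
    (hψφ : ∀ a z, fderiv ℝ φ z (bv a) = ψ a z)
    (hφ0 : ∀ z, Z ≤ ‖z‖ → φ z = 0) (hB : ∀ z, |φ z| ≤ B₀) (hB' : ∀ a z, |ψ a z| ≤ B₁)
    (hB'' : ∀ a b z, |fderiv ℝ (ψ a) z (bv b)| ≤ B₂) (hB2 : 0 ≤ B₂) (hB1 : 0 ≤ B₁) :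
    |∫ x in ball (0 : V d) 2, chh h x * (∑ a, fderiv ℝ (ψ a) (zp x) (bv a)) * x j *
      nsq (G x)| ≤ (2 * (2 * h * (d * (d * B₂)))) * Ez G h Z +
        (B₀ * c + 2 * (d * (B₁ * (2 * h) * ((d + 2) * c))) + 2 * (B₀ * ((d + 2) * c))) *
          In G h Z := by
  have hB0 : 0 ≤ B₀ := (abs_nonneg _).trans (hB 0)
  have hcd : Differentiable ℝ (chh (d := d) h) := hC.differentiable (by simp)
  have hφd : Differentiable ℝ φ := hφ.differentiable (by simp)
  have hψd : ∀ a, Differentiable ℝ (ψ a) := fun a => (hψ a).differentiable (by simp)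
  have hφz := fderiv_zero hφ hZ hφ0
  have hψ0 : ∀ a z, Z ≤ ‖z‖ → ψ a z = 0 := by
    intro a z hz
    rw [← hψφ, hφz z hz]; rfl
  have hψz : ∀ a z, Z ≤ ‖z‖ → fderiv ℝ (ψ a) z = 0 := fun a => fderiv_zero (hψ a) hZ (hψ0 a)
  have hcc : Continuous (chh (d := d) h) := hcd.continuous
  have hpb : ∀ a b : Fin d, Continuous (fun x : V d => fderiv ℝ (ψ a) (zp x) (bv b)) :=
    fun a b => (((hψ a).continuous_fderiv (by simp)).comp zp_cont).clm_apply continuous_const
  have hxj : Continuous (fun x : V d => x j) := by fun_prop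
  have hFc : Continuous (fun x : V d => chh h x * (∑ a, fderiv ℝ (ψ a) (zp x) (bv a)) * x j) :=
    (hcc.mul (continuous_finsetSum _ fun a _ => hpb a a)).mul hxj
  obtain ⟨K, hK⟩ := (isCompact_closedBall (0 : V d) 2).exists_bound_of_continuousOn hFc.continuousOn
  set α : Fin d → V d → ℝ := fun a x => ψ a (zp x) * chh h x * x j with hα
  set β : V d → ℝ := fun x : V d => φ (zp x) * chh h x with hβ
  have hαC : ∀ a, ContDiff ℝ 1 (α a) := fun a =>
    (X_C1 hC (hψ a)).mul (EuclideanSpace.proj j : V d →L[ℝ] ℝ).contDiff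
  have hαd : ∀ a, Differentiable ℝ (α a) := fun a => (hαC a).differentiable (by simp)
  have hβC : ContDiff ℝ 1 β := X_C1 hC hφ
  have hβd : Differentiable ℝ β := hβC.differentiable (by simp)
  have hαfd : ∀ (a : Fin d) (x v : V d), fderiv ℝ (α a) x v =
      (fderiv ℝ (ψ a) (zp x) (zp v) * chh h x + ψ a (zp x) * fderiv ℝ (chh h) x v) * x j +
        ψ a (zp x) * chh h x * v j := fun a x v => fd2 (hψd a) hcd j x v
  have hβfd : ∀ x v : V d, fderiv ℝ β x v =
      fderiv ℝ φ (zp x) (zp v) * chh h x + φ (zp x) * fderiv ℝ (chh h) x v :=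
    fun x v => fd1 hφd hcd x v
  refine key (d := d) (m := m) hM hG hs
    (X := fun x => (∑ a, α a x • (bv a.succ.succ : V d)) - β x • (bv j : V d))
    (F := fun x L => chh h x * (∑ a, fderiv ℝ (ψ a) (zp x) (bv a)) * x j * nsq L)
    (R₁ := fun x L => - (2 * (chh h x * x j * ∑ a : Fin d, ∑ b : Fin d,
      fderiv ℝ (ψ a) (zp x) (bv b) * ⟪L (bv b.succ.succ), L (bv a.succ.succ)⟫)))
    (R₂ := fun x L => - (φ (zp x) * fderiv ℝ (chh h) x (bv j) * nsq L) -
      2 * (∑ a, ψ a (zp x) * x j * Sk h x L a.succ.succ) + 2 * (φ (zp x) * Sk h x L j)) (K := K)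
    ((ContDiff.sum fun a _ => (hαC a).smul contDiff_const).sub (hβC.smul contDiff_const))
    ?_ ?_ ?_ ?_ (Tu_meas h Z) (Tu_sub hh8 hZ1) (by positivity) (An_meas h Z) (An_sub hh8 hZ1)
    (by positivity) ?_ ?_ ?_ ?_ ?_ ?_
  · intro x hx
    have h7 : (∀ a, α a x = 0) ∧ β x = 0 := by
      rcases out_cb hh8 hZ1 hx with h5 | h5
      · simp [hα, hβ, h2 x h5]
      · simp [hα, hβ, hφ0 _ h5, hψ0 _ _ h5]
    simp [h7.1, h7.2]
  · exact (hFc.comp continuous_fst).mul (nsq_cont.comp continuous_snd)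
  · refine (continuous_const.mul (((hcc.comp continuous_fst).mul (hxj.comp continuous_fst)).mul
      (continuous_finsetSum _ fun a _ => continuous_finsetSum _ fun b _ => ?_))).neg
    exact ((hpb a b).comp continuous_fst).mul (Continuous.inner (by fun_prop) (by fun_prop))
  · have h8 : Continuous (fun p : V d × (V d →L[ℝ] E m) => fderiv ℝ (chh h) p.1 (bv j)) :=
      ((hC.continuous_fderiv (by simp)).comp continuous_fst).clm_apply continuous_const
    have h9 : Continuous (fun p : V d × (V d →L[ℝ] E m) => φ (zp p.1)) :=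
      (hφ.continuous.comp zp_cont).comp continuous_fst
    refine ((((h9.mul h8).mul (nsq_cont.comp continuous_snd)).neg.sub
      (continuous_const.mul (continuous_finsetSum _ fun a _ => ?_))).add
      (continuous_const.mul (h9.mul (Sk_cont hC j))))
    exact ((((hψ a).continuous.comp zp_cont).comp continuous_fst).mul
      (hxj.comp continuous_fst)).mul (Sk_cont hC a.succ.succ)
  · intro x hx L
    have h5 := hK x (ball_subset_closedBall hx)
    rw [Real.norm_eq_abs] at h5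
    rw [abs_mul, abs_of_nonneg (nsq_nn L)]
    exact mul_le_mul_of_nonneg_right h5 (nsq_nn L)
  · intro x hx L
    have h5 : |∑ a : Fin d, ∑ b : Fin d, fderiv ℝ (ψ a) (zp x) (bv b) *
        ⟪L (bv b.succ.succ), L (bv a.succ.succ)⟫| ≤ d * (d * (B₂ * nzs L)) := by
      refine sum_abs_le _ fun a => sum_abs_le _ fun b => ?_
      rw [abs_mul]
      exact mul_le_mul (hB'' a b _) (abs_inner_le' L b a) (abs_nonneg _) hB2
    have hx1 : |x j| ≤ 2 * h := (coord_le hj x).trans hx.1.le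
    rw [abs_neg, abs_mul, abs_two, abs_mul, abs_mul, abs_of_nonneg (hb x).1]
    have h6 : chh h x * |x j| ≤ 1 * (2 * h) :=
      mul_le_mul (hb x).2 hx1 (abs_nonneg _) zero_le_one
    have h7 := mul_le_mul h6 h5 (abs_nonneg _) (by positivity)
    nlinarith [h7]
  · intro x hx L
    by_cases h5 : Z ≤ ‖zp x‖
    · simp [hψz _ _ h5]
    · have h6 : 2 * h ≤ rho x := by
        by_contra h7
        exact hx ⟨not_le.mp h7, not_le.mp h5⟩
      simp [h2 x h6]
  · rintro x ⟨-, hx2, -⟩ L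
    have h7 := nsq_nn L
    have hx1 : |x j| ≤ 2 * h := (coord_le hj x).trans hx2.le
    have h9 : |φ (zp x) * fderiv ℝ (chh h) x (bv j) * nsq L| ≤ B₀ * c * nsq L := by
      rw [abs_mul, abs_mul, abs_of_nonneg h7]
      have h10 := h3 x (bv j)
      rw [bv_norm, mul_one] at h10
      exact mul_le_mul_of_nonneg_right (mul_le_mul (hB _) h10 (abs_nonneg _) hB0) h7
    have h11 : |∑ a, ψ a (zp x) * x j * Sk h x L a.succ.succ| ≤
        d * (B₁ * (2 * h) * ((d + 2) * (c * nsq L))) := by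
      refine sum_abs_le _ fun a => ?_
      rw [abs_mul, abs_mul]
      have h12 := mul_le_mul (hB' a (zp x)) hx1 (abs_nonneg _) hB1
      exact mul_le_mul h12 (Sk_le h3 x L a.succ.succ) (abs_nonneg _) (by positivity)
    have h15 : |φ (zp x) * Sk h x L j| ≤ B₀ * ((d + 2) * (c * nsq L)) := by
      rw [abs_mul]
      exact mul_le_mul (hB (zp x)) (Sk_le h3 x L j) (abs_nonneg _) hB0
    have h16 := abs_le.mp h9
    have h17 := abs_le.mp h11
    have h18 := abs_le.mp h15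
    have e : (B₀ * c + 2 * (d * (B₁ * (2 * h) * ((d + 2) * c))) + 2 * (B₀ * ((d + 2) * c))) *
        nsq L = B₀ * c * nsq L + 2 * (d * (B₁ * (2 * h) * ((d + 2) * (c * nsq L)))) +
        2 * (B₀ * ((d + 2) * (c * nsq L))) := by ring
    rw [e, abs_le]
    constructor <;> linarith [h16.1, h16.2, h17.1, h17.2, h18.1, h18.2]
  · intro x hx L
    by_cases h5 : Z ≤ ‖zp x‖
    · simp [hφ0 _ h5, hψ0 _ _ h5]
    · have h6 : fderiv ℝ (chh h) x = 0 :=
        chh_fd hb h1 h2 x (fun h7 => hx ⟨h7.1, h7.2, not_le.mp h5⟩)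
      simp [Sk, h6]
  · intro x L
    have hD : ∀ v, fderiv ℝ (fun x => (∑ a, α a x • (bv a.succ.succ : V d)) -
        β x • (bv j : V d)) x v = (∑ a, fderiv ℝ (α a) x v • bv a.succ.succ) -
        fderiv ℝ β x v • bv j := by
      intro v
      have e1 : HasFDerivAt (fun x => ∑ a, α a x • (bv a.succ.succ : V d))
          (∑ a, (fderiv ℝ (α a) x).smulRight (bv a.succ.succ : V d)) x :=
        HasFDerivAt.fun_sum fun a _ => (hαd a x).hasFDerivAt.smul_const _
      have e2 : HasFDerivAt (fun x => β x • (bv j : V d))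
          ((fderiv ℝ β x).smulRight (bv j : V d)) x := (hβd x).hasFDerivAt.smul_const _
      have e3 : HasFDerivAt (fun x => (∑ a, α a x • (bv a.succ.succ : V d)) -
        β x • (bv j : V d)) _ x := e1.sub e2
      rw [e3.fderiv]
      simp
    rw [statF_gen L _ (fun a => fderiv ℝ (α a) x) (fderiv ℝ β x) j hD]
    have hjz : ∀ b : Fin d, (bv b.succ.succ : V d) j = 0 := by
      intro b
      rw [bv_apply', if_neg]
      intro h5
      have := congrArg Fin.val h5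
      simp at this
      omega
    have hzj : zp (bv j : V d) = 0 := by
      ext i
      show (bv j : V d) i.succ.succ = 0
      rw [bv_apply', if_neg]
      intro h5
      have := congrArg Fin.val h5
      simp at this
      omega
    have hjj : (bv j : V d) j = 1 := by rw [bv_apply', if_pos rfl]
    have hsj : ∀ (k : Fin (d + 2)) (s : ℝ), ∑ i, ⟪L (bv i), L (bv k)⟫ * (s * (bv i : V d) j) =
        s * ⟪L (bv j), L (bv k)⟫ := by
      intro k s
      rw [Finset.sum_eq_single j]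
      · rw [hjj]; ring
      · intro i _ hi
        rw [bv_apply', if_neg (Ne.symm hi)]; ring
      · intro h5; exact absurd (Finset.mem_univ _) h5
    have hz : ∀ (k : Fin (d + 2)) (f : E d →L[ℝ] ℝ),
        ∑ i, ⟪L (bv i), L (bv k)⟫ * f (zp (bv i : V d)) =
        ∑ b : Fin d, f (bv b) * ⟪L (bv b.succ.succ), L (bv k)⟫ := by
      intro k f
      rw [sum_two (fun i => ⟪L (bv i), L (bv k)⟫ * f (zp (bv i : V d)))]
      simp only [zp_zero, zp_one, zp_two, map_zero, mul_zero, zero_add]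
      exact Finset.sum_congr rfl fun b _ => mul_comm _ _
    have h6 : ∀ a : Fin d, ∑ i, ⟪L (bv i), L (bv a.succ.succ)⟫ * fderiv ℝ (α a) x (bv i) =
        chh h x * x j * (∑ b : Fin d, fderiv ℝ (ψ a) (zp x) (bv b) *
          ⟪L (bv b.succ.succ), L (bv a.succ.succ)⟫) +
        ψ a (zp x) * x j * Sk h x L a.succ.succ +
        ψ a (zp x) * chh h x * ⟪L (bv j), L (bv a.succ.succ)⟫ := by
      intro a
      rw [← hsj a.succ.succ (ψ a (zp x) * chh h x), ← hz a.succ.succ (fderiv ℝ (ψ a) (zp x))]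
      unfold Sk
      rw [Finset.mul_sum, Finset.mul_sum, ← Finset.sum_add_distrib, ← Finset.sum_add_distrib]
      refine Finset.sum_congr rfl fun i _ => ?_
      rw [hαfd]
      ring
    have h6' : ∑ i, ⟪L (bv i), L (bv j)⟫ * fderiv ℝ β x (bv i) =
        chh h x * (∑ b : Fin d, ψ b (zp x) * ⟪L (bv b.succ.succ), L (bv j)⟫) +
        φ (zp x) * Sk h x L j := by
      have e1 : ∀ b : Fin d, ψ b (zp x) * ⟪L (bv b.succ.succ), L (bv j)⟫ =
          fderiv ℝ φ (zp x) (bv b) * ⟪L (bv b.succ.succ), L (bv j)⟫ := by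
        intro b; rw [hψφ]
      rw [Finset.sum_congr rfl fun b _ => e1 b, ← hz j (fderiv ℝ φ (zp x))]
      unfold Sk
      rw [Finset.mul_sum, Finset.mul_sum, ← Finset.sum_add_distrib]
      refine Finset.sum_congr rfl fun i _ => ?_
      rw [hβfd]
      ring
    have h7 : ∑ a : Fin d, fderiv ℝ (α a) x (bv a.succ.succ) =
        chh h x * (∑ a, fderiv ℝ (ψ a) (zp x) (bv a)) * x j := by
      rw [Finset.mul_sum, Finset.sum_mul]
      refine Finset.sum_congr rfl fun a _ => ?_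
      rw [hαfd, h4, hjz, zp_two]
      ring
    have h8 : ∑ a : Fin d, ψ a (zp x) * chh h x * ⟪L (bv j), L (bv a.succ.succ)⟫ =
        chh h x * (∑ b : Fin d, ψ b (zp x) * ⟪L (bv b.succ.succ), L (bv j)⟫) := by
      rw [Finset.mul_sum]
      refine Finset.sum_congr rfl fun a _ => ?_
      rw [real_inner_comm (L (bv a.succ.succ)) (L (bv j))]
      ring
    rw [Finset.sum_congr rfl fun a _ => h6 a, Finset.sum_add_distrib, Finset.sum_add_distrib,
      h8, h6', h7, hβfd, hzj, map_zero, zero_mul, zero_add, ← Finset.mul_sum]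
    ring

end CNS

theorem pf_CNS (hMUF : Pool.Agent.H22.AN.T_MUF) (hCHF : T_CHF) : T_CNS := by
  intro d
  obtain ⟨C, hC0, hC⟩ := hCHF
  refine ⟨4 * ((d : ℝ) + 2) ^ 2 * (C + 1), by positivity, ?_⟩
  intro m G hG hs h Z hh hh8 hZ hZ1
  obtain ⟨h1, h2, h3, h4, h5, h6, -, -⟩ := hC d h hh
  have hd0 : (0 : ℝ) ≤ d := Nat.cast_nonneg d
  have hEz : 0 ≤ Ez G h Z := integral_nonneg fun x => CNS.nzs_nn _
  have hIn : 0 ≤ In G h Z := integral_nonneg fun x => CNS.nsq_nn _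
  refine ⟨?_, ?_⟩
  · intro φ B₀ B₁ a hφ hφ0 hB hB'
    have hB0 : 0 ≤ B₀ := (abs_nonneg _).trans (hB 0)
    have hB1 : 0 ≤ B₁ := (norm_nonneg _).trans (hB' 0)
    have := CNS.part1 hMUF hh8 hZ hZ1 (by positivity : 0 ≤ C / h) h1 h2 h3 h4 h5 h6 hG hs a hφ
      hφ0 hB hB'
    refine this.trans ?_
    have k1 : 2 * (d * B₁) ≤ 4 * ((d : ℝ) + 2) ^ 2 * (C + 1) * B₁ := by
      have : 2 * (d : ℝ) ≤ 4 * ((d : ℝ) + 2) ^ 2 * (C + 1) := by nlinarith [mul_nonneg hd0 hC0]
      nlinarith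
    have k2 : 2 * (B₀ * ((d + 2) * (C / h))) ≤ 4 * ((d : ℝ) + 2) ^ 2 * (C + 1) * (B₀ / h) := by
      have e1 : 2 * (B₀ * ((d + 2) * (C / h))) = 2 * ((d : ℝ) + 2) * C * (B₀ / h) := by
        field_simp
      rw [e1]
      refine mul_le_mul_of_nonneg_right ?_ (by positivity)
      nlinarith [mul_nonneg hd0 hC0, mul_nonneg (mul_nonneg hd0 hd0) hC0]
    have k3 := mul_le_mul_of_nonneg_right k1 hEz
    have k4 := mul_le_mul_of_nonneg_right k2 hIn
    linarith
  · intro φ B₀ B₁ B₂ j hφ hφ0 hB hB' hB'' hj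
    have hB0 : 0 ≤ B₀ := (abs_nonneg _).trans (hB 0)
    have hB1 : 0 ≤ B₁ := (norm_nonneg _).trans (hB' 0)
    have hB2 : 0 ≤ B₂ := (ContinuousLinearMap.opNorm_nonneg _).trans (hB'' 0)
    have hφ1 : ContDiff ℝ 1 φ := hφ.of_le (by norm_num)
    have hfd : ContDiff ℝ 1 (fderiv ℝ φ) := hφ.fderiv_right (by norm_num)
    have hfdd : Differentiable ℝ (fderiv ℝ φ) := hfd.differentiable (by simp)
    have hψ : ∀ a : Fin d, ContDiff ℝ 1 (fun z => fderiv ℝ φ z (bv a)) :=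
      fun a => hfd.clm_apply contDiff_const
    have hψfd : ∀ (a : Fin d) (z v : E d), fderiv ℝ (fun z => fderiv ℝ φ z (bv a)) z v =
        fderiv ℝ (fderiv ℝ φ) z v (bv a) := by
      intro a z v
      have e1 := (hfdd z).hasFDerivAt.clm_apply (hasFDerivAt_const (bv a : E d) z)
      rw [e1.fderiv]
      simp
    have e2 : ∀ (z v w : E d), |fderiv ℝ (fderiv ℝ φ) z v w| ≤ B₂ * ‖v‖ * ‖w‖ := by
      intro z v w
      have e3 := (fderiv ℝ (fderiv ℝ φ) z v).le_opNorm w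
      have e4 := (fderiv ℝ (fderiv ℝ φ) z).le_opNorm v
      rw [Real.norm_eq_abs] at e3
      refine e3.trans (mul_le_mul_of_nonneg_right (e4.trans ?_) (norm_nonneg _))
      exact mul_le_mul_of_nonneg_right (hB'' z) (norm_nonneg _)
    have := CNS.part2 hMUF hh hh8 hZ hZ1 (by positivity : 0 ≤ C / h) h1 h2 h3 h4 h5 h6 hG hs
      (φ := φ) (ψ := fun a z => fderiv ℝ φ z (bv a)) (B₀ := B₀) (B₁ := B₁) (B₂ := B₂) hj hφ1 hψ
      (fun _ _ => rfl) hφ0 hB
      (fun a z => by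
        have e3 := (fderiv ℝ φ z).le_opNorm (bv a)
        rw [CNS.bv_norm, mul_one, Real.norm_eq_abs] at e3
        exact e3.trans (hB' z))
      (fun a b z => by
        rw [hψfd]
        have e3 := e2 z (bv b) (bv a)
        rwa [CNS.bv_norm, CNS.bv_norm, mul_one, mul_one] at e3) hB2 hB1
    have hlap : ∀ z : E d, ∑ a, fderiv ℝ (fun z => fderiv ℝ φ z (bv a)) z (bv a) = lap φ z := by
      intro z
      unfold lap
      exact Finset.sum_congr rfl fun a _ => hψfd a z (bv a)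
    simp only [hlap] at this
    refine this.trans ?_
    have hCd : 0 ≤ C * d := mul_nonneg hC0 hd0
    have hCdd : 0 ≤ C * d * d := mul_nonneg hCd hd0
    have k1 : 2 * (2 * h * (d * (d * B₂))) ≤ 4 * ((d : ℝ) + 2) ^ 2 * (C + 1) * (h * B₂) := by
      have e1 : 2 * (2 * h * (d * (d * B₂))) = 4 * (d : ℝ) ^ 2 * (h * B₂) := by ring
      rw [e1]
      refine mul_le_mul_of_nonneg_right ?_ (by positivity)
      nlinarith
    have k2 : B₀ * (C / h) + 2 * (d * (B₁ * (2 * h) * ((d + 2) * (C / h)))) +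
        2 * (B₀ * ((d + 2) * (C / h))) ≤
        4 * ((d : ℝ) + 2) ^ 2 * (C + 1) * (B₁ + B₀ / h) := by
      have e1 : B₀ * (C / h) + 2 * (d * (B₁ * (2 * h) * ((d + 2) * (C / h)))) +
        2 * (B₀ * ((d + 2) * (C / h))) = (2 * (d : ℝ) + 5) * C * (B₀ / h) +
          4 * (d : ℝ) * (d + 2) * C * B₁ := by
        field_simp
        ring
      rw [e1]
      have e3 : (2 * (d : ℝ) + 5) * C ≤ 4 * ((d : ℝ) + 2) ^ 2 * (C + 1) := by nlinarith
      have e4 : 4 * (d : ℝ) * (d + 2) * C ≤ 4 * ((d : ℝ) + 2) ^ 2 * (C + 1) := by nlinarith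
      have e5 := mul_le_mul_of_nonneg_right e3 (show 0 ≤ B₀ / h by positivity)
      have e6 := mul_le_mul_of_nonneg_right e4 hB1
      linarith
    have k3 := mul_le_mul_of_nonneg_right k1 hEz
    have k4 := mul_le_mul_of_nonneg_right k2 hIn
    linarith

end

end Pool.Agent.H50.AN
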